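import Pool.Agent.E8helper49.PC.Stm

/-! Piece STEPA of the project PC. -/

set_option autoImplicit false

namespace Pool.Agent.E8helper85.PC

open NumberField Pool.Agent.E8helper49.PC

theorem t_STEPA : S_STEPA := by
  intro K L _ _ _ _ _ _ hodd
  have h0 : IsUnramifiedAtInfinitePlaces K L := IsUnramifiedAtInfinitePlaces_of_odd_finrank hodd
  have h1 := IsUnramifiedAtInfinitePlaces.card_infinitePlace K L
  have h2 : nA L = nA K * Module.finrank K L := by
    unfold nA
    rw [Nat.card_eq_fintype_card, Nat.card_eq_fintype_card]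
    exact h1
  obtain ⟨k, hk⟩ := hodd
  refine ⟨nA K * (k + 1), ?_⟩
  rw [h2, hk]
  ring

end Pool.Agent.E8helper85.PC
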